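import Pool.Agent.W2helper31.BS.Bal
import Pool.Agent.W2helper31.BS.ExC

set_option autoImplicit false

/-! Every affine Hecke algebra with arbitrary positive weight function admits a balanced system of
cell representations. -/

open Pool.Agent.W2helper31.BS

/-- Let `(W, S)` be an affine Weyl group of finite rank and `L` a positive weight function.  The
Hecke algebra with its Kazhdan-Lusztig basis exists, and it admits a balanced system of cell
representations. -/
theorem Pool.Agent.Results.MP_74db7f_al.BalancedSystemsExist.result
    {B : Type} [Fintype B] (M : CoxeterMatrix B) (hM : IsAffineWeyl M)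
    {W : Type} [Group W] (cs : CoxeterSystem M W) (L : W → ℕ) (hL : IsWeight cs L) :
    Nonempty (HeckeData cs L) ∧
    ∀ D : HeckeData cs L, ∃ (π : Set W → MatRep D.H) (a : Set W → ℕ), IsBalanced D π a :=
  ⟨heckeData_nonempty cs hL, fun D => balanced_exists hM hL D⟩
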